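import Pool.Agent.Y160.EN.Stm
import Pool.Agent.Y160.T3.Pairs

/-!
# Good polynomials with several points at which the values are `q`-th powers
-/

set_option autoImplicit false

open Polynomial

namespace Pool.Agent.Y100.EN

open Pool.Agent.Y160.T3 Pool.Agent.Y160.EN

theorem bez {q n : ℕ} (hq : 0 < q) (h : q.Coprime n) : ∃ j b : ℕ, b * q = j * n + 1 := by
  obtain ⟨x, -, hx⟩ := Nat.exists_mul_mod_eq_of_coprime (k := q) (n := n) (q - 1) h.symm hq.ne'
  have h1 : x * n ≡ q - 1 [MOD q] := by rw [mul_comm]; exact hx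
  have h2 : x * n + 1 ≡ q - 1 + 1 [MOD q] := h1.add_right 1
  rw [Nat.sub_add_cancel hq] at h2
  obtain ⟨b, hb⟩ := Nat.modEq_zero_iff_dvd.1 (h2.trans (by rw [Nat.modEq_zero_iff_dvd]))
  exact ⟨x, b, by rw [hb, mul_comm]⟩

open Classical in
theorem roots_card {F : Type} [Field F] [Fintype F] {q : ℕ} (hq : 0 < q) (c : F) :
    (Finset.univ.filter fun z : F => z ^ q = c).card ≤ q := by
  have h1 : (Finset.univ.filter fun z : F => z ^ q = c) ⊆ (nthRoots q c).toFinset := by
    intro z hz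
    rw [Finset.mem_filter] at hz
    rw [Multiset.mem_toFinset, mem_nthRoots hq]
    exact hz.2
  exact (Finset.card_le_card h1).trans ((Multiset.toFinset_card_le _).trans (card_nthRoots q c))

open Classical in
/-- the good polynomials -/
noncomputable def Hs (F : Type) [Field F] [Fintype F] (m R : ℕ) : Finset (Fin m → F) :=
  Finset.univ.filter fun a : Fin m → F => GoodP R (mF a)

open Classical in
/-- the points of the curve `z ^ q = g (x)` -/
noncomputable def Ws {F : Type} [Field F] [Fintype F] {m : ℕ} (q : ℕ) (a : Fin m → F) :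
    Finset (F × F) :=
  Finset.univ.filter fun y => y.2 ^ q = (mF a).eval y.1

open Classical in
theorem claim1 {F : Type} [Field F] [Fintype F] {m q R j b₀ : ℕ} (hm : 2 ≤ m) (hb0 : 0 < b₀)
    (hb : b₀ * q = j * (R * m) + 1) :
    (Hs F m R).card * Fintype.card F ≤ b₀ * ∑ a ∈ Hs F m R, (Ws q a).card := by
  have h1 : (((Hs F m R).sigma fun a => Ws q a).sigma fun ζ =>
      Finset.univ.filter fun t : F => t ^ b₀ = ζ.2.2).card ≤
      b₀ * ∑ a ∈ Hs F m R, (Ws q a).card := by
    have e1 : ∑ a ∈ Hs F m R, (Ws q a).card = ((Hs F m R).sigma fun a => Ws q a).card :=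
      (Finset.card_sigma _ _).symm
    rw [e1, Finset.card_sigma, mul_comm]
    refine (Finset.sum_le_card_nsmul _ _ b₀ ?_).trans (le_of_eq (smul_eq_mul _ _))
    intro ζ _
    exact roots_card hb0 _
  refine le_trans ?_ h1
  have h2 : (Hs F m R).card * Fintype.card F = ((Hs F m R) ×ˢ (Finset.univ : Finset F)).card := by
    rw [Finset.card_product, Finset.card_univ]
  rw [h2]
  refine Finset.card_le_card_of_injOn (fun y =>
    (⟨⟨fun i => ((((mF y.1).eval y.2) ^ j) ^ R) ^ m *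
      (y.1 i * ((((mF y.1).eval y.2) ^ j) ^ R)⁻¹ ^ (i : ℕ)),
      ((((mF y.1).eval y.2) ^ j) ^ R * y.2, ((mF y.1).eval y.2) ^ b₀)⟩, (mF y.1).eval y.2⟩ :
      (_ : (_ : Fin m → F) × (F × F)) × F)) ?_ ?_
  · rintro ⟨a, x⟩ hx
    rw [Finset.mem_coe, Finset.mem_product] at hx
    have ha : GoodP R (mF a) := (Finset.mem_filter.1 hx.1).2
    have ht : (mF a).eval x ≠ 0 := by
      intro h0
      have h3 := degree_eq_one_of_irreducible_of_root ha.1 h0
      rw [degree_eq_natDegree (mF_monic a).ne_zero, mF_natDegree] at h3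
      have h4 : m = 1 := by exact_mod_cast h3
      omega
    have hν : (mF a).eval x ^ j ≠ 0 := pow_ne_zero _ ht
    have hμ : ((mF a).eval x ^ j) ^ R ≠ 0 := pow_ne_zero _ hν
    rw [Finset.mem_coe, Finset.mem_sigma, Finset.mem_sigma]
    refine ⟨⟨?_, ?_⟩, ?_⟩
    · refine Finset.mem_filter.2 ⟨Finset.mem_univ _, ?_⟩
      show GoodP R (mF fun i => ((((mF a).eval x) ^ j) ^ R) ^ m *
        (a i * ((((mF a).eval x) ^ j) ^ R)⁻¹ ^ (i : ℕ)))
      rw [← sc_mF hμ]
      exact good_sc hν ha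
    · refine Finset.mem_filter.2 ⟨Finset.mem_univ _, ?_⟩
      show ((mF a).eval x ^ b₀) ^ q = (mF fun i => ((((mF a).eval x) ^ j) ^ R) ^ m *
        (a i * ((((mF a).eval x) ^ j) ^ R)⁻¹ ^ (i : ℕ))).eval (((mF a).eval x ^ j) ^ R * x)
      rw [← sc_mF hμ, eval_mul, eval_C]
      unfold sc
      rw [eval_comp, eval_mul, eval_C, eval_X, ← mul_assoc, inv_mul_cancel₀ hμ, one_mul,
        ← pow_mul, ← pow_mul, ← pow_mul, hb, pow_succ]
    · exact Finset.mem_filter.2 ⟨Finset.mem_univ _, rfl⟩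
  · rintro ⟨a, x⟩ hx ⟨a', x'⟩ _ h
    rw [Finset.mem_coe, Finset.mem_product] at hx
    have ha : GoodP R (mF a) := (Finset.mem_filter.1 hx.1).2
    have ht : (mF a).eval x ≠ 0 := by
      intro h0
      have h3 := degree_eq_one_of_irreducible_of_root ha.1 h0
      rw [degree_eq_natDegree (mF_monic a).ne_zero, mF_natDegree] at h3
      have h4 : m = 1 := by exact_mod_cast h3
      omega
    have hμ : ((mF a).eval x ^ j) ^ R ≠ 0 := pow_ne_zero _ (pow_ne_zero _ ht)
    simp only [Sigma.mk.injEq, heq_eq_eq, Prod.mk.injEq] at h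
    obtain ⟨⟨h3, h4, -⟩, h5⟩ := h
    rw [← h5] at h3 h4
    have e3 : a = a' := by
      funext i
      have h6 := congrFun h3 i
      exact mul_right_cancel₀ (pow_ne_zero _ (inv_ne_zero hμ))
        (mul_left_cancel₀ (pow_ne_zero _ hμ) h6)
    have e4 : x = x' := mul_left_cancel₀ hμ h4
    rw [e3, e4]

open Classical in
/-- the tuples of points -/
noncomputable def Ts (F : Type) [Field F] [Fintype F] (m n q R : ℕ) :
    Finset ((Fin m → F) × (Fin n → F) × (Fin n → F)) :=
  Finset.univ.filter fun x => GoodP R (mF x.1) ∧ ∀ i, x.2.2 i ^ q = (mF x.1).eval (x.2.1 i)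

open Classical in
theorem claim2a {F : Type} [Field F] [Fintype F] {m q R : ℕ} (n : ℕ) :
    ∑ a ∈ Hs F m R, (Ws q a).card ^ n ≤ (Ts F m n q R).card := by
  have h1 : ((Hs F m R).sigma fun a => Fintype.piFinset fun _ : Fin n => Ws q a).card =
      ∑ a ∈ Hs F m R, (Ws q a).card ^ n := by
    rw [Finset.card_sigma]
    refine Finset.sum_congr rfl fun a _ => ?_
    rw [Fintype.card_piFinset, Finset.prod_const, Finset.card_univ, Fintype.card_fin]
  rw [← h1]
  refine Finset.card_le_card_of_injOn (fun y => (y.1, (fun i => (y.2 i).1), fun i => (y.2 i).2))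
    ?_ ?_
  · rintro ⟨a, v⟩ hy
    rw [Finset.mem_coe, Finset.mem_sigma] at hy
    refine Finset.mem_filter.2 ⟨Finset.mem_univ _, (Finset.mem_filter.1 hy.1).2, fun i => ?_⟩
    exact (Finset.mem_filter.1 ((Fintype.mem_piFinset.1 hy.2) i)).2
  · rintro ⟨a, v⟩ _ ⟨a', v'⟩ _ h
    simp only [Prod.mk.injEq] at h
    obtain ⟨h3, h4, h5⟩ := h
    have h6 : v = v' := by
      funext i
      exact Prod.ext (congrFun h4 i) (congrFun h5 i)
    rw [h3, h6]

theorem claim2 {F : Type} [Field F] [Fintype F] {m q R j b₀ : ℕ} (n : ℕ) (hm : 2 ≤ m)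
    (hR : Odd R) (hRF : R ∣ Fintype.card F - 1) (hn : 2 * (R * m) + 2 ≤ Fintype.card F)
    (hb0 : 0 < b₀) (hb : b₀ * q = j * (R * m) + 1) :
    Fintype.card F ^ (m + (n + 1)) ≤ 2 * (R * m) * b₀ ^ (n + 1) * (Ts F m (n + 1) q R).card := by
  classical
  have h1 : Fintype.card F ^ m ≤ 2 * (R * m) * (Hs F m R).card := irr_count (by omega) hR F hRF hn
  have hH : 0 < (Hs F m R).card := by
    rcases Nat.eq_zero_or_pos (Hs F m R).card with h0 | h0
    · rw [h0, mul_zero] at h1
      have : 0 < Fintype.card F ^ m := Nat.pow_pos Fintype.card_pos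
      omega
    · exact h0
  have h2 := claim1 (F := F) (R := R) hm hb0 hb
  have h3 : (∑ a ∈ Hs F m R, (Ws q a).card) ^ (n + 1) ≤
      (Hs F m R).card ^ n * ∑ a ∈ Hs F m R, (Ws q a).card ^ (n + 1) :=
    pow_sum_le_card_mul_sum_pow (fun _ _ => Nat.zero_le _) n
  have h4 := claim2a (F := F) (m := m) (q := q) (R := R) (n + 1)
  have h5 : (Hs F m R).card ^ n * ((Hs F m R).card * Fintype.card F ^ (n + 1)) ≤
      (Hs F m R).card ^ n * (b₀ ^ (n + 1) * (Ts F m (n + 1) q R).card) := by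
    calc (Hs F m R).card ^ n * ((Hs F m R).card * Fintype.card F ^ (n + 1))
        = ((Hs F m R).card * Fintype.card F) ^ (n + 1) := by ring
      _ ≤ (b₀ * ∑ a ∈ Hs F m R, (Ws q a).card) ^ (n + 1) := Nat.pow_le_pow_left h2 _
      _ = b₀ ^ (n + 1) * (∑ a ∈ Hs F m R, (Ws q a).card) ^ (n + 1) := mul_pow _ _ _
      _ ≤ b₀ ^ (n + 1) * ((Hs F m R).card ^ n * (Ts F m (n + 1) q R).card) :=
          Nat.mul_le_mul_left _ (h3.trans (Nat.mul_le_mul_left _ h4))
      _ = _ := by ring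
  have h6 := Nat.le_of_mul_le_mul_left h5 (Nat.pow_pos hH)
  calc Fintype.card F ^ (m + (n + 1)) = Fintype.card F ^ m * Fintype.card F ^ (n + 1) := pow_add _ _ _
    _ ≤ 2 * (R * m) * (Hs F m R).card * Fintype.card F ^ (n + 1) := Nat.mul_le_mul_right _ h1
    _ = 2 * (R * m) * ((Hs F m R).card * Fintype.card F ^ (n + 1)) := by ring
    _ ≤ 2 * (R * m) * (b₀ ^ (n + 1) * (Ts F m (n + 1) q R).card) := Nat.mul_le_mul_left _ h6
    _ = _ := by ring

open Classical in
theorem noninj_card {F : Type} [Fintype F] (n : ℕ) :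
    (Finset.univ.filter fun x : Fin (n + 1) → F => ¬ Function.Injective x).card ≤
      (n + 1) ^ 2 * Fintype.card F ^ n := by
  have h1 : (Finset.univ.filter fun x : Fin (n + 1) → F => ¬ Function.Injective x) ⊆
      ((Finset.univ : Finset (Fin (n + 1) × Fin (n + 1))).filter fun p => p.1 ≠ p.2).biUnion
        (fun p => Finset.univ.filter fun x : Fin (n + 1) → F => x p.1 = x p.2) := by
    intro x hx
    have h2 := (Finset.mem_filter.1 hx).2
    unfold Function.Injective at h2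
    push Not at h2
    obtain ⟨i, k, h3, h4⟩ := h2
    exact Finset.mem_biUnion.2 ⟨(i, k), Finset.mem_filter.2 ⟨Finset.mem_univ _, h4⟩,
      Finset.mem_filter.2 ⟨Finset.mem_univ _, h3⟩⟩
  have h2 : ∀ p ∈ (Finset.univ : Finset (Fin (n + 1) × Fin (n + 1))).filter (fun p => p.1 ≠ p.2),
      (Finset.univ.filter fun x : Fin (n + 1) → F => x p.1 = x p.2).card ≤
        Fintype.card F ^ n := by
    intro p hp
    have hp2 : p.1 ≠ p.2 := (Finset.mem_filter.1 hp).2
    have h3 : Fintype.card F ^ n = (Finset.univ : Finset (Fin n → F)).card := by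
      rw [Finset.card_univ, Fintype.card_fun, Fintype.card_fin]
    rw [h3]
    refine Finset.card_le_card_of_injOn (fun x k => x (p.2.succAbove k)) (fun _ _ =>
      Finset.mem_coe.2 (Finset.mem_univ _)) ?_
    intro x hx y hy hxy
    have hx' : x p.1 = x p.2 := (Finset.mem_filter.1 (Finset.mem_coe.1 hx)).2
    have hy' : y p.1 = y p.2 := (Finset.mem_filter.1 (Finset.mem_coe.1 hy)).2
    have key : ∀ k, k ≠ p.2 → x k = y k := by
      intro k hk
      obtain ⟨l, rfl⟩ := Fin.exists_succAbove_eq hk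
      exact congrFun hxy l
    funext k
    by_cases hk : k = p.2
    · rw [hk, ← hx', ← hy', key _ hp2]
    · exact key k hk
  calc _ ≤ _ := Finset.card_le_card h1
    _ ≤ _ := Finset.card_biUnion_le
    _ ≤ _ := Finset.sum_le_card_nsmul _ _ _ h2
    _ ≤ (n + 1) ^ 2 * Fintype.card F ^ n := by
        rw [smul_eq_mul]
        refine Nat.mul_le_mul_right _ ((Finset.card_filter_le _ _).trans ?_)
        rw [Finset.card_univ, Fintype.card_prod, Fintype.card_fin, pow_two]

open Classical in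
theorem claim3 {F : Type} [Field F] [Fintype F] {m q R : ℕ} (n : ℕ) (hq : 0 < q) :
    (Ts F m (n + 1) q R).card ≤
      (Finset.univ.filter fun x : (Fin m → F) × (Fin (n + 1) → F) × (Fin (n + 1) → F) =>
        GoodP R (mF x.1) ∧ Function.Injective x.2.1 ∧
          ∀ i, x.2.2 i ^ q = (mF x.1).eval (x.2.1 i)).card +
      (n + 1) ^ 2 * q ^ (n + 1) * Fintype.card F ^ (m + n) := by
  have h1 : Ts F m (n + 1) q R ⊆
      (Finset.univ.filter fun x : (Fin m → F) × (Fin (n + 1) → F) × (Fin (n + 1) → F) =>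
        GoodP R (mF x.1) ∧ Function.Injective x.2.1 ∧
          ∀ i, x.2.2 i ^ q = (mF x.1).eval (x.2.1 i)) ∪
      (Finset.univ.filter fun x : (Fin m → F) × (Fin (n + 1) → F) × (Fin (n + 1) → F) =>
        ¬ Function.Injective x.2.1 ∧ ∀ i, x.2.2 i ^ q = (mF x.1).eval (x.2.1 i)) := by
    intro x hx
    have h2 := (Finset.mem_filter.1 hx).2
    rw [Finset.mem_union]
    by_cases hi : Function.Injective x.2.1
    · left
      exact Finset.mem_filter.2 ⟨Finset.mem_univ _, h2.1, hi, h2.2⟩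
    · right
      exact Finset.mem_filter.2 ⟨Finset.mem_univ _, hi, h2.2⟩
  refine (Finset.card_le_card h1).trans ((Finset.card_union_le _ _).trans
    (Nat.add_le_add_left ?_ _))
  -- the bad tuples
  have h2 : (Finset.univ.filter fun x : (Fin m → F) × (Fin (n + 1) → F) × (Fin (n + 1) → F) =>
        ¬ Function.Injective x.2.1 ∧ ∀ i, x.2.2 i ^ q = (mF x.1).eval (x.2.1 i)).card ≤
      (((Finset.univ : Finset (Fin m → F)) ×ˢ
        (Finset.univ.filter fun x : Fin (n + 1) → F => ¬ Function.Injective x)).sigma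
        fun y => Fintype.piFinset fun i : Fin (n + 1) =>
          Finset.univ.filter fun z : F => z ^ q = (mF y.1).eval (y.2 i)).card := by
    refine Finset.card_le_card_of_injOn (fun x =>
      (⟨(x.1, x.2.1), x.2.2⟩ : (_ : (Fin m → F) × (Fin (n + 1) → F)) × (Fin (n + 1) → F))) ?_ ?_
    · rintro ⟨a, x, z⟩ hx
      have h3 := (Finset.mem_filter.1 (Finset.mem_coe.1 hx)).2
      rw [Finset.mem_coe, Finset.mem_sigma, Finset.mem_product]
      exact ⟨⟨Finset.mem_univ _, Finset.mem_filter.2 ⟨Finset.mem_univ _, h3.1⟩⟩,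
        Fintype.mem_piFinset.2 fun i => Finset.mem_filter.2 ⟨Finset.mem_univ _, h3.2 i⟩⟩
    · rintro ⟨a, x, z⟩ _ ⟨a', x', z'⟩ _ h
      simp only [Sigma.mk.injEq, heq_eq_eq, Prod.mk.injEq] at h
      obtain ⟨⟨e1, e2⟩, e3⟩ := h
      rw [e1, e2, e3]
  refine h2.trans ?_
  rw [Finset.card_sigma]
  have h3 : ∀ y ∈ (Finset.univ : Finset (Fin m → F)) ×ˢ
        (Finset.univ.filter fun x : Fin (n + 1) → F => ¬ Function.Injective x),
      (Fintype.piFinset fun i : Fin (n + 1) =>
          Finset.univ.filter fun z : F => z ^ q = (mF y.1).eval (y.2 i)).card ≤ q ^ (n + 1) := by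
    intro y _
    rw [Fintype.card_piFinset]
    have h4 : ∏ i : Fin (n + 1), (Finset.univ.filter fun z : F =>
        z ^ q = (mF y.1).eval (y.2 i)).card ≤ ∏ _i : Fin (n + 1), q :=
      Finset.prod_le_prod (fun _ _ => Nat.zero_le _) fun i _ => roots_card hq _
    refine h4.trans (le_of_eq ?_)
    rw [Finset.prod_const, Finset.card_univ, Fintype.card_fin]
  refine (Finset.sum_le_card_nsmul _ _ _ h3).trans ?_
  rw [smul_eq_mul, Finset.card_product, Finset.card_univ, Fintype.card_fun, Fintype.card_fin]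
  calc Fintype.card F ^ m *
      (Finset.univ.filter fun x : Fin (n + 1) → F => ¬ Function.Injective x).card * q ^ (n + 1)
      ≤ Fintype.card F ^ m * ((n + 1) ^ 2 * Fintype.card F ^ n) * q ^ (n + 1) :=
        Nat.mul_le_mul_right _ (Nat.mul_le_mul_left _ (noninj_card n))
    _ = _ := by ring

theorem t_irr1 : St_irr1 := by
  classical
  intro n m q R hR hq hm hn hcop
  obtain ⟨n, rfl⟩ : ∃ n', n = n' + 1 := ⟨n - 1, by omega⟩
  obtain ⟨j, b₀, hb⟩ := bez hq hcop
  have hb0 : 0 < b₀ := by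
    rcases Nat.eq_zero_or_pos b₀ with h | h
    · rw [h] at hb
      omega
    · exact h
  obtain ⟨L, hL⟩ : ∃ L, L = 2 * (R * m) * b₀ ^ (n + 1) := ⟨_, rfl⟩
  obtain ⟨Q, hQ⟩ : ∃ Q, Q = (n + 1) ^ 2 * q ^ (n + 1) := ⟨_, rfl⟩
  refine ⟨2 * L, 2 * (L * Q) + (2 * (R * m) + 2), ?_⟩
  intro F _ _ hRF hN
  have h1 := claim2 (F := F) (q := q) n hm hR hRF (by omega) hb0 hb
  have h2 := claim3 (F := F) (m := m) (R := R) n hq
  rw [← hL] at h1
  rw [← hQ] at h2
  have h3 : {x : (Fin m → F) × (Fin (n + 1) → F) × (Fin (n + 1) → F) | GoodP R (mF x.1) ∧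
        Function.Injective x.2.1 ∧ ∀ i, x.2.2 i ^ q = (mF x.1).eval (x.2.1 i)} =
      ((Finset.univ.filter fun x : (Fin m → F) × (Fin (n + 1) → F) × (Fin (n + 1) → F) =>
        GoodP R (mF x.1) ∧ Function.Injective x.2.1 ∧
          ∀ i, x.2.2 i ^ q = (mF x.1).eval (x.2.1 i) : Finset _) : Set _) := by
    ext x
    simp
  rw [h3, Set.ncard_coe_finset]
  generalize (Finset.univ.filter fun x : (Fin m → F) × (Fin (n + 1) → F) × (Fin (n + 1) → F) =>
        GoodP R (mF x.1) ∧ Function.Injective x.2.1 ∧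
          ∀ i, x.2.2 i ^ q = (mF x.1).eval (x.2.1 i)).card = J at h2 ⊢
  have h4 : Fintype.card F ^ (m + (n + 1)) ≤ L * J + L * Q * Fintype.card F ^ (m + n) := by
    refine h1.trans ((Nat.mul_le_mul_left L h2).trans (le_of_eq ?_))
    ring
  have h5 : 2 * (L * Q) * Fintype.card F ^ (m + n) ≤ Fintype.card F ^ (m + (n + 1)) := by
    rw [← add_assoc, pow_succ, mul_comm (Fintype.card F ^ (m + n))]
    exact Nat.mul_le_mul_right _ (by omega)
  have h6 : 2 * (L * Q) * Fintype.card F ^ (m + n) = 2 * (L * Q * Fintype.card F ^ (m + n)) := by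
    ring
  have h7 : 2 * L * J = 2 * (L * J) := by ring
  rw [h7]
  rw [h6] at h5
  omega

end Pool.Agent.Y100.EN
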